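import Pool.Agent.H682R3.Few.Bool

/-!
# Boolean circuits with fewer than `(2 - δ) n²` input-output paths
-/

namespace Pool.Agent.Results.MP_22d2c8_lc.FewPaths

open Finset Pool.Agent.H682R3.Few

/-- Let `C` be a Boolean circuit (nodes compute arbitrary Boolean functions of their predecessors,
any fan-in) computing the length-preserving function `toeplitz m`: with `n = m / 3`, the output
`i < n` is `⋁_{j < n} a_j ∧ a_{2 n + i - j}`. Let `f j w` be the number of directed paths from the
nodes carrying the input `a_j`, `j < n`, to the node `w`. If the total number of directed paths from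
the first `n` inputs to the first `n` outputs is at most `(2 - δ) n²`, then the number of nodes plus
the number of edges is at least `δ⁵ n² / 20000`. -/
theorem result (m : ℕ) (C : BCircuit m) (hC : C.Computes (toeplitz m)) (δ : ℝ) (hδ : 0 < δ)
    (hδ2 : δ ≤ 2) (f : Fin (m / 3) → C.V → ℕ)
    (hf : ∀ j, C.G.IsCount ∅ (start (labx C) j) (f j))
    (hN : ((∑ i, ∑ j, f j (C.out (emb m i)) : ℕ) : ℝ) ≤ (2 - δ) * ((m / 3 : ℕ) : ℝ) ^ 2) :
    δ ^ 5 * ((m / 3 : ℕ) : ℝ) ^ 2 / 20000 ≤ Fintype.card C.V + C.G.E.card :=
  bool_bound C hC δ hδ hδ2 f hf hN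

end Pool.Agent.Results.MP_22d2c8_lc.FewPaths
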