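import Pool.Agent.H249R3.LinC.Final

set_option autoImplicit false

/-!
# How many oracles give every explicit function circuits of linear size?

For every gauge `f`, the set of the oracles relative to which every language in `NP` has circuits
of linear size is a null set for `f` if and only if for every `δ > 0` there are infinitely many
`N` with `f N ≤ N ^ δ`. The same holds for every set of oracles between the set of the oracles
relative to which every language in nondeterministic exponential time has circuits of linear size
and the set of the oracles relative to which every language in `P` has circuits of linear size.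
-/

namespace Pool.Agent.Results.MP_22d2c8_lc.GaugeThreshold

open Pool.Agent.NPC Pool.Agent.H620R2.Gauge Pool.Agent.H249R3.LinC
open Pool.Agent.H622R2.Exp (Lin InNTime)

theorem result (f : ℕ → ℝ) :
    (Null f {A : Oracle | ∀ L, IsNP A L → LinSize A L} ↔
      ∀ δ : ℝ, 0 < δ → ∃ᶠ N : ℕ in Filter.atTop, f N ≤ (N : ℝ) ^ δ) ∧
    (∀ O : Set Oracle,
      (∀ A : Oracle, (∀ L, InNTime Lin A L → LinSize A L) → A ∈ O) →
      (∀ A ∈ O, ∀ L, IsP A L → LinSize A L) →
      (Null f O ↔ ∀ δ : ℝ, 0 < δ → ∃ᶠ N : ℕ in Filter.atTop, f N ≤ (N : ℝ) ^ δ)) :=
  ⟨main_np f, fun O h1 h2 => main_lin f O h1 h2⟩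

end Pool.Agent.Results.MP_22d2c8_lc.GaugeThreshold
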