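import Mathlib
import Pool.Agent.NPC.Defs
import Pool.Agent.NPC.Dec
import Pool.Agent.H559R3.UDefs
import Pool.Agent.H670NU.Defs
import Pool.Agent.H670NU.Main

/-!
# A superlinear lower bound for an explicit function and circuits with near-linear advice

Let `σ` be a nondecreasing function between a root of `log n` and `n ^ (1 - 1 / e)`. For every `k`
there is a language `L` in `NP` which has no Boolean circuits of size `O(n * σ n ^ k)` (over the
full binary basis) whose descriptions can be computed in polynomial time with one round of parallel
queries to an `NP` language and with `n / σ n` bits of advice. For instance, no circuits with
`n * (log n) ^ 10` gates whose descriptions can be computed so with `n / (log n) ^ 0.01` bits of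
advice; and, for every `k` and `ε > 0`, no circuits with `n ^ k` gates and `n ^ (1 - ε)` bits.

For circuits with `O(n)` gates the description itself has `O(n log n)` bits: with that many bits
of advice there would be no condition on the descriptions.

Proof.  Descriptions which are computed with parallel `NP` queries can be computed in `NP`, bit by
bit, from the advice and the number of positive answers, since the set of the positive answers can
be guessed and checked; the number of the positive answers has `O(log n)` bits and is added to the
advice. For descriptions in `NP` with advice, start with a diagonal language. The language of the
padded questions about the bits of the circuits (with the advice as a part of the question) is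
again in `NP`, so it has small circuits, again with descriptions of this kind. Iterate. The input
length shrinks by a factor `σ` at each level, so that after some constant number of levels the
description of the circuit can be written down explicitly in `o(n)` bits, and so can the advice
strings of all levels. From this code the diagonal language decodes the descriptions of all levels,
and differs from the language decided by the first one. This second step is the theorem `main`
of the starting file `Pool/Agent/H559R3/UMain.lean`, which had not been handed in.
-/

namespace Pool.Agent.Results.MP_22d2c8_lc.ParallelNPDescriptions

open Pool.Agent.NPC Pool.Agent.NPC.H559U Pool.Agent.H670NU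

theorem result (σ : ℕ → ℕ) (hσ : Monotone σ) (t e : ℕ)
    (hσ1 : ∀ᶠ n in Filter.atTop, Nat.log 2 n ≤ σ n ^ t)
    (hσ2 : ∀ᶠ n in Filter.atTop, σ n ^ e * n ≤ n ^ e) (k : ℕ) :
    ∃ L, InNP L ∧ ∀ a : ℕ → ℕ, (∀ᶠ n in Filter.atTop, a n * σ n ≤ n) → ∀ c,
      ¬ HasParallelNPCircuits a (fun n => c * (n * σ n ^ k)) L :=
  main_par σ hσ t e hσ1 hσ2 k

end Pool.Agent.Results.MP_22d2c8_lc.ParallelNPDescriptions
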