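import Mathlib
import Pool.Agent.H540R2.Circ
import Pool.Agent.H540R2.Fm
import Pool.Agent.H416R3.TD.Defs
import Pool.Agent.H416R3.TD.Low

/-!
# Superlinear lower bounds for circuits of small tree-depth

The gates of a circuit, joined by the wires between them, form an undirected graph (the input
variables may be read any number of times, they are not vertices of it). A circuit with `S` gates
whose graph has tree-depth at most `d` has an equivalent formula with at most `4 ^ (d + 1) * S`
leaves, hence the bound of Khrapchenko holds for it up to this factor, and a circuit for the parity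
of `n` bits has at least `n ^ 2 / 4 ^ (d + 1)` gates. For `d ≤ a log₂ n` with `a < 1 / 2` this is
superlinear.
-/

set_option autoImplicit false

namespace Pool.Agent.Results.MP_22d2c8_lc.TreeDepthParity

open Pool.Agent.H540R2 Pool.Agent.H416R3.TD

theorem result (n : ℕ) (C : Circuit n) (S d : ℕ) (hS1 : 1 ≤ S) (hS : C.size ≤ S)
    (hd : TreeDepth C (Finset.range C.size) d) :
    (∃ F : Fm n, F.sz + 1 ≤ 4 ^ (d + 1) * S ∧ ∀ x, F.eval x = C.eval x) ∧
    (∀ A B : Finset (Fin n → Bool), (∀ x ∈ A, C.eval x = true) → (∀ x ∈ B, C.eval x = false) →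
      (edges A B) ^ 2 ≤ 4 ^ (d + 1) * S * (A.card * B.card)) ∧
    ((∀ x, C.eval x = par x) → n ^ 2 ≤ 4 ^ (d + 1) * S) :=
  ⟨main_sz4 C S d hS1 hS hd, fun A B hA hB => khr_circuit C S d hS1 hS hd A B hA hB,
    fun hC => par_circuit C S d hS1 hS hd hC⟩

end Pool.Agent.Results.MP_22d2c8_lc.TreeDepthParity
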